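import Pool.Agent.H12.QC.Targets

/-!
# Row SPI of the board `qcf_modules`: infinite places of a quadratic extension
-/

set_option autoImplicit false

open NumberField IsDedekindDomain Pool.Agent.H32.QC Pool.Agent.H23.QCF Pool.Agent.H12.QC

namespace Pool.Agent.H93.QC

/-- real complex embeddings are real embeddings -/
noncomputable def realEquiv (K : Type) [Field K] :
    {φ : K →+* ℂ // ComplexEmbedding.IsReal φ} ≃ (K →+* ℝ) where
  toFun φ := φ.2.embedding
  invFun ψ := ⟨Complex.ofRealHom.comp ψ, by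
    rw [ComplexEmbedding.isReal_iff]
    ext x
    simp [ComplexEmbedding.conjugate_coe_eq]⟩
  left_inv φ := by
    apply Subtype.ext
    ext x
    simp
  right_inv ψ := by
    ext x
    show (Complex.ofRealHom (ψ x)).re = ψ x
    simp

theorem two_card (K : Type) [Field K] [NumberField K] :
    2 * Fintype.card (InfinitePlace K) = Module.finrank ℚ K + Nat.card (K →+* ℝ) := by
  have h1 := InfinitePlace.card_eq_nrRealPlaces_add_nrComplexPlaces (K := K)
  have h2 := InfinitePlace.card_add_two_mul_card_eq_rank K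
  have h3 : Nat.card (K →+* ℝ) = InfinitePlace.nrRealPlaces K := by
    classical
    rw [← Nat.card_congr (realEquiv K), Nat.card_congr InfinitePlace.mkReal,
      Nat.card_eq_fintype_card]
  omega

theorem pf_SPI (hSIG : T_SIG) : T_SPI := by
  classical
  intro K E _ _ _ _ _ t s hQ
  obtain ⟨σ, hσ, -, -, -, hgen, -⟩ := hSIG K E t s hQ
  have hdeg : Module.finrank ℚ E = 2 * Module.finrank ℚ K := by
    rw [← Module.finrank_mul_finrank ℚ K E, hQ.deg, mul_comm]
  have ht0 : t ≠ 0 := by
    rintro rfl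
    exact hQ.nsq ⟨0, by simp⟩
  -- extensions
  have hext : ∀ φ : K →+* ℝ, IsSquare (φ t) → ∃ ψ : E →+* ℝ, ψ.comp (algebraMap K E) = φ := by
    intro φ ⟨r, hr⟩
    let _ : Algebra K ℂ := (Complex.ofRealHom.comp φ).toAlgebra
    let ψ₀ : E →ₐ[K] ℂ := IsAlgClosed.lift
    have h1 : ∀ x : K, ψ₀ (algebraMap K E x) = (φ x : ℂ) := fun x => ψ₀.commutes x
    have h2 : ψ₀ s = (r : ℂ) ∨ ψ₀ s = -(r : ℂ) := by
      rw [← sq_eq_sq_iff_eq_or_eq_neg, ← map_pow, hQ.sq, h1, hr]
      push_cast
      ring
    have h3 : (ψ₀ s).im = 0 := by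
      rcases h2 with h | h
      · rw [h]; simp
      · rw [h]; simp
    have h4 : ∀ x : E, (ψ₀ x).im = 0 := by
      intro x
      obtain ⟨a, b, rfl⟩ := hgen x
      rw [map_add, map_mul, h1, h1]
      simp [h3]
    have h5 : ∀ x : E, ((ψ₀ x).re : ℂ) = ψ₀ x := by
      intro x
      apply Complex.ext
      · simp
      · simp [h4 x]
    refine ⟨{ toFun := fun x => (ψ₀ x).re
              map_one' := by simp
              map_mul' := fun x y => by rw [map_mul, Complex.mul_re, h4 x, h4 y]; ring
              map_zero' := by simp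
              map_add' := fun x y => by rw [map_add, Complex.add_re] }, ?_⟩
    ext x
    show (ψ₀ (algebraMap K E x)).re = φ x
    rw [h1, Complex.ofReal_re]
  choose ψ hψ using hext
  let f : {φ : K →+* ℝ // IsSquare (φ t)} × Bool → (E →+* ℝ) := fun p =>
    if p.2 then ψ p.1.1 p.1.2 else (ψ p.1.1 p.1.2).comp (σ : E →+* E)
  have hf : Function.Injective f := by
    rintro ⟨⟨φ, hφ⟩, b⟩ ⟨⟨φ', hφ'⟩, b'⟩ h
    have hres : ∀ (φ : K →+* ℝ) (hφ : IsSquare (φ t)) (b : Bool),
        (f (⟨φ, hφ⟩, b)).comp (algebraMap K E) = φ := by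
      intro φ hφ b
      cases b
      · show ((ψ φ hφ).comp (σ : E →+* E)).comp (algebraMap K E) = φ
        rw [RingHom.comp_assoc]
        have : (σ : E →+* E).comp (algebraMap K E) = algebraMap K E := by
          ext x; exact σ.commutes x
        rw [this, hψ]
      · exact hψ φ hφ
    have h1 : φ = φ' := by
      rw [← hres φ hφ b, ← hres φ' hφ' b', h]
    subst h1
    have h2 : ψ φ hφ s ≠ 0 := by
      intro h0
      have h3 : (ψ φ hφ s) ^ 2 = φ t := by
        rw [← map_pow, hQ.sq]
        exact RingHom.congr_fun (hψ φ hφ) t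
      rw [h0, zero_pow two_ne_zero] at h3
      exact ht0 ((map_eq_zero φ).1 h3.symm)
    have h3 : ((ψ φ hφ).comp (σ : E →+* E)) s = -(ψ φ hφ s) := by
      show ψ φ hφ (σ s) = _
      rw [hσ, map_neg]
    have h4 : b = b' := by
      cases b <;> cases b'
      · rfl
      · exfalso
        have h5 : (ψ φ hφ).comp (σ : E →+* E) = ψ φ hφ := h
        rw [h5] at h3
        apply h2
        linarith
      · exfalso
        have h5 : ψ φ hφ = (ψ φ hφ).comp (σ : E →+* E) := h
        rw [← h5] at h3
        apply h2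
        linarith
      · rfl
    rw [h4]
  have hcard : 2 * Nat.card {φ : K →+* ℝ // IsSquare (φ t)} ≤ Nat.card (E →+* ℝ) := by
    have h1 := Nat.card_le_card_of_injective f hf
    rw [Nat.card_prod] at h1
    simp only [Nat.card_eq_fintype_card, Fintype.card_bool] at h1 ⊢
    omega
  have hsum : Nat.card {φ : K →+* ℝ // IsSquare (φ t)} +
      {φ : K →+* ℝ | ¬ IsSquare (φ t)}.ncard = Nat.card (K →+* ℝ) := by
    have h1 := Set.ncard_add_ncard_compl {φ : K →+* ℝ | IsSquare (φ t)}
    rw [← h1]
    rfl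
  have h1 := two_card K
  have h2 := two_card E
  omega

end Pool.Agent.H93.QC
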