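import Pool.Agent.H12.QC.Targets

/-!
# Row STRANS of the board `qcf_modules`: places above one place are conjugate
-/

set_option autoImplicit false

open NumberField IsDedekindDomain Pool.Agent.H32.QC Pool.Agent.H23.QCF Pool.Agent.H12.QC

namespace Pool.Agent.H93.QC

section

variable {E : Type} [Field E] [NumberField E]

/-- the conjugate place -/
noncomputable def cj (τ : 𝓞 E ≃+* 𝓞 E) (w : FPl E) : FPl E where
  asIdeal := w.asIdeal.comap (τ : 𝓞 E →+* 𝓞 E)
  isPrime := by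
    have := w.isPrime
    exact Ideal.comap_isPrime _ _
  ne_bot := by
    intro h
    obtain ⟨x, hx, hx0⟩ := Submodule.exists_mem_ne_zero_of_ne_bot w.ne_bot
    have h1 : τ.symm x ∈ w.asIdeal.comap (τ : 𝓞 E →+* 𝓞 E) := by
      rw [Ideal.mem_comap]
      simpa using hx
    rw [h, Ideal.mem_bot] at h1
    exact hx0 (by simpa using h1)

theorem mem_cj (τ : 𝓞 E ≃+* 𝓞 E) (w : FPl E) (x : 𝓞 E) :
    x ∈ (cj τ w).asIdeal ↔ τ x ∈ w.asIdeal := Iff.rfl

theorem mem_cj_pow (τ : 𝓞 E ≃+* 𝓞 E) (w : FPl E) (n : ℕ) (x : 𝓞 E) :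
    x ∈ (cj τ w).asIdeal ^ n ↔ τ x ∈ w.asIdeal ^ n := by
  have h1 : (cj τ w).asIdeal = w.asIdeal.map (τ.symm : 𝓞 E →+* 𝓞 E) := by
    show w.asIdeal.comap (τ : 𝓞 E →+* 𝓞 E) = _
    ext y
    rw [Ideal.mem_comap]
    constructor
    · intro h
      have := Ideal.mem_map_of_mem (τ.symm : 𝓞 E →+* 𝓞 E) h
      simpa using this
    · intro h
      have h2 : w.asIdeal.map (τ.symm : 𝓞 E →+* 𝓞 E) ≤ w.asIdeal.comap (τ : 𝓞 E →+* 𝓞 E) := by
        rw [Ideal.map_le_iff_le_comap]
        intro z hz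
        rw [Ideal.mem_comap, Ideal.mem_comap]
        simpa using hz
      exact h2 h
  rw [h1, ← Ideal.map_pow]
  constructor
  · intro h
    have h2 : (w.asIdeal ^ n).map (τ.symm : 𝓞 E →+* 𝓞 E) ≤
        (w.asIdeal ^ n).comap (τ : 𝓞 E →+* 𝓞 E) := by
      rw [Ideal.map_le_iff_le_comap]
      intro z hz
      rw [Ideal.mem_comap, Ideal.mem_comap]
      simpa using hz
    exact h2 h
  · intro h
    have := Ideal.mem_map_of_mem (τ.symm : 𝓞 E →+* 𝓞 E) h
    simpa using this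

theorem int_cj (τ : 𝓞 E ≃+* 𝓞 E) (w : FPl E) (r : 𝓞 E) :
    (cj τ w).intValuation r = w.intValuation (τ r) := by
  by_cases hr : r = 0
  · rw [hr, map_zero, map_zero, map_zero]
  have hr' : τ r ≠ 0 := by
    intro h
    exact hr (by simpa using h)
  have h : ∀ n : ℕ, (cj τ w).intValuation r ≤ WithZero.exp (-(n : ℤ)) ↔
      w.intValuation (τ r) ≤ WithZero.exp (-(n : ℤ)) := by
    intro n
    rw [HeightOneSpectrum.intValuation_le_pow_iff_mem,
      HeightOneSpectrum.intValuation_le_pow_iff_mem, mem_cj_pow]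
  rw [HeightOneSpectrum.intValuation_eq_exp_neg_multiplicity _ hr,
    HeightOneSpectrum.intValuation_eq_exp_neg_multiplicity _ hr'] at h ⊢
  exact le_antisymm ((h _).2 le_rfl) ((h _).1 le_rfl)

end

section

variable {K E : Type} [Field K] [NumberField K] [Field E] [NumberField E] [Algebra K E]

/-- the conjugate place -/
noncomputable def cjs (σ : E ≃ₐ[K] E) (w : FPl E) : FPl E :=
  cj (RingOfIntegers.mapRingEquiv (σ : E ≃+* E)) w

theorem val_cjs (σ : E ≃ₐ[K] E) (w : FPl E) (x : E) :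
    (cjs σ w).valuation E x = w.valuation E (σ x) := by
  obtain ⟨a, b, _, rfl⟩ := IsFractionRing.div_surjective (𝓞 E) x
  have h : ∀ a : 𝓞 E, σ (algebraMap (𝓞 E) E a) =
      algebraMap (𝓞 E) E (RingOfIntegers.mapRingEquiv (σ : E ≃+* E) a) := fun a => rfl
  rw [map_div₀, map_div₀, map_div₀, h, h, HeightOneSpectrum.valuation_of_algebraMap,
    HeightOneSpectrum.valuation_of_algebraMap, HeightOneSpectrum.valuation_of_algebraMap,
    HeightOneSpectrum.valuation_of_algebraMap]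
  unfold cjs
  rw [int_cj, int_cj]

theorem und_cjs (σ : E ≃ₐ[K] E) (w : FPl E) : (cjs σ w).under (𝓞 K) = w.under (𝓞 K) := by
  refine HeightOneSpectrum.ext ?_
  ext x
  show RingOfIntegers.mapRingEquiv (σ : E ≃+* E) (algebraMap (𝓞 K) (𝓞 E) x) ∈ w.asIdeal ↔
    algebraMap (𝓞 K) (𝓞 E) x ∈ w.asIdeal
  have h : RingOfIntegers.mapRingEquiv (σ : E ≃+* E) (algebraMap (𝓞 K) (𝓞 E) x) =
      algebraMap (𝓞 K) (𝓞 E) x := by
    apply RingOfIntegers.coe_injective
    show σ (algebraMap K E (x : K)) = algebraMap K E (x : K)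
    exact σ.commutes _
  rw [h]

theorem eq_of_val (w w' : FPl E) (h : ∀ x : E, w'.valuation E x = w.valuation E x) : w' = w := by
  refine HeightOneSpectrum.ext ?_
  ext x
  rw [← HeightOneSpectrum.intValuation_lt_one_iff_mem,
    ← HeightOneSpectrum.intValuation_lt_one_iff_mem,
    ← HeightOneSpectrum.valuation_of_algebraMap (K := E),
    ← HeightOneSpectrum.valuation_of_algebraMap (K := E), h]

end

theorem pf_STRANS (hSIG : T_SIG) : T_TRANS := by
  intro K E _ _ _ _ _ t s hQ σ hσ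
  refine ⟨fun w => ⟨cjs σ w, und_cjs σ w, val_cjs σ w⟩, fun w w' hw => ?_⟩
  by_cases h1 : w' = w
  · exact Or.inl h1
  right
  obtain ⟨σ', hσ', -, hN, -, hgen, -⟩ := hSIG K E t s hQ
  have hσσ : ∀ x, σ' x = σ x := by
    intro x
    obtain ⟨a, b, rfl⟩ := hgen x
    rw [map_add, map_add, map_mul, map_mul, σ.commutes, σ'.commutes, σ.commutes, σ'.commutes,
      hσ, hσ']
  have h2 : w' = cjs σ w := by
    by_contra h2
    have h3 : ¬ (w'.asIdeal : Set (𝓞 E)) ⊆ w.asIdeal ∪ (cjs σ w).asIdeal := by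
      rw [Ideal.subset_union]
      rintro (h | h)
      · exact h1 (HeightOneSpectrum.ext (w'.isMaximal.eq_of_le w.isPrime.ne_top h))
      · exact h2 (HeightOneSpectrum.ext (w'.isMaximal.eq_of_le (cjs σ w).isPrime.ne_top h))
    rw [Set.not_subset] at h3
    obtain ⟨z, hz, hz'⟩ := h3
    rw [Set.mem_union, not_or] at hz'
    obtain ⟨hz1, hz2⟩ := hz'
    have hz3 : RingOfIntegers.mapRingEquiv (σ : E ≃+* E) z ∉ w.asIdeal := hz2
    have hn : algebraMap (𝓞 K) (𝓞 E) (RingOfIntegers.norm K z) =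
        z * RingOfIntegers.mapRingEquiv (σ : E ≃+* E) z := by
      apply RingOfIntegers.coe_injective
      show algebraMap K E (Algebra.norm K (z : E)) = (z : E) * σ (z : E)
      rw [hN, hσσ]
    have h4 : RingOfIntegers.norm K z ∈ (w'.under (𝓞 K)).asIdeal := by
      show algebraMap (𝓞 K) (𝓞 E) (RingOfIntegers.norm K z) ∈ w'.asIdeal
      rw [hn]
      exact Ideal.mul_mem_right _ _ hz
    rw [hw] at h4
    have h5 : algebraMap (𝓞 K) (𝓞 E) (RingOfIntegers.norm K z) ∈ w.asIdeal := h4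
    rw [hn] at h5
    rcases w.isPrime.mem_or_mem h5 with h | h
    · exact hz1 h
    · exact hz3 h
  intro x
  rw [h2, val_cjs]

end Pool.Agent.H93.QC
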