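import Pool.Agent.H12.QC.Targets2

/-!
# Row STWO of the board `qcf_modules`: the product formula for `2`
-/

set_option autoImplicit false

open NumberField IsDedekindDomain Pool.Agent.H23.QCF Pool.Agent.H12.QC
open Pool.Agent.H32.QC (Sol hil Iso FPl Pl ic hs sqAt nsq)

namespace Pool.Agent.H93.QC

theorem pf_STWO : T_TWO := by
  intro K _ _ S hS
  have h1 := FinitePlace.prod_eq_inv_abs_norm (K := K) (x := 2) two_ne_zero
  have h2 : Algebra.norm ℚ (2 : K) = 2 ^ Module.finrank ℚ K := by
    have h3 := Algebra.norm_algebraMap (S := K) (2 : ℚ)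
    rwa [map_ofNat] at h3
  have h3 : ∏ᶠ w : FinitePlace K, w 2 = ∏ v ∈ S, ‖(2 : v.adicCompletion K)‖ := by
    simp only [← finprod_comp_equiv FinitePlace.equivHeightOneSpectrum.symm,
      FinitePlace.equivHeightOneSpectrum_symm_apply]
    have h4 : ∀ v : HeightOneSpectrum (𝓞 K), ‖FinitePlace.embedding v (2 : K)‖ =
        ‖(2 : v.adicCompletion K)‖ := by
      intro v
      rw [map_ofNat]
    simp only [h4]
    refine finprod_eq_prod_of_mulSupport_subset _ ?_
    intro v hv
    by_contra hv'
    apply hv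
    show ‖(2 : v.adicCompletion K)‖ = 1
    rw [← h4 v, FinitePlace.norm_embedding', hS v hv']
    simp
  rw [← h3, h1, h2]
  rw [abs_of_pos (by positivity)]
  push_cast
  exact inv_mul_cancel₀ (by positivity)

end Pool.Agent.H93.QC
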