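import Pool.Agent.H93.QC.STRANS

/-!
# Row SUNV of the board `qcf_modules`: valuations at unramified places
-/

set_option autoImplicit false

open NumberField IsDedekindDomain Pool.Agent.H32.QC Pool.Agent.H23.QCF Pool.Agent.H12.QC

namespace Pool.Agent.H93.QC

theorem pf_SUNV (hSIG : T_SIG) : T_UNV := by
  intro K E _ _ _ _ _ t s hQ w h2 ht
  obtain ⟨σ, hσ, -, hN, -, hgen, -⟩ := hSIG K E t s hQ
  have : w.asIdeal.LiesOver (w.under (𝓞 K)).asIdeal := ⟨rfl⟩
  set e := (w.under (𝓞 K)).asIdeal.ramificationIdx' w.asIdeal with he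
  have hL : ∀ x : K, (w.under (𝓞 K)).valuation K x ^ e = w.valuation E (algebraMap K E x) :=
    fun x => HeightOneSpectrum.valuation_liesOver (K := K) E (w.under (𝓞 K)) w x
  have h0 : e ≠ 0 :=
    Ideal.IsDedekindDomain.ramificationIdx'_ne_zero_of_liesOver w.asIdeal (w.under (𝓞 K)).ne_bot
  suffices h1 : e = 1 by
    intro x
    rw [← hL x, h1, pow_one]
  -- values of elements of `K`
  have hval : ∀ x : K, w.valuation E (algebraMap K E x) < 1 →
      w.valuation E (algebraMap K E x) ≤ WithZero.exp (-(e : ℤ)) := by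
    intro x hx
    rw [← hL x] at hx ⊢
    by_cases hx0 : (w.under (𝓞 K)).valuation K x = 0
    · rw [hx0, zero_pow h0]; exact zero_le
    have h3 := WithZero.exp_log hx0
    rw [← h3, ← WithZero.exp_nsmul] at hx ⊢
    rw [← WithZero.exp_zero, WithZero.exp_lt_exp] at hx
    rw [WithZero.exp_le_exp]
    rw [nsmul_eq_mul] at hx ⊢
    have he0 : (0 : ℤ) < e := by positivity
    have h4 : WithZero.log ((w.under (𝓞 K)).valuation K x) < 0 := by
      by_contra hcon
      push Not at hcon
      have := mul_nonneg he0.le hcon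
      linarith
    have h5 : WithZero.log ((w.under (𝓞 K)).valuation K x) ≤ -1 := by omega
    nlinarith
  by_cases hc : cjs σ w = w
  · -- the only place above
    have hinv : ∀ x : E, w.valuation E (σ x) = w.valuation E x := by
      intro x
      rw [← val_cjs σ w x, hc]
    obtain ⟨z, hz⟩ := w.valuation_exists_uniformizer E
    obtain ⟨a, b, hab⟩ := hgen z
    have hw2 : w.valuation E 2 = 1 := by
      have := hL 2
      rw [h2, one_pow, map_ofNat] at this
      exact this.symm
    have hws : w.valuation E s = 1 := by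
      have h3 := hL t
      rw [ht, one_pow, ← hQ.sq, map_pow] at h3
      have h4 : w.valuation E s ^ 2 = 1 := h3.symm
      rcases pow_eq_one_iff.1 h4 with h5 | h5
      · exact h5
      · exact absurd h5 two_ne_zero
    have hσz : σ z = algebraMap K E a - algebraMap K E b * s := by
      rw [hab, map_add, map_mul, σ.commutes, σ.commutes, hσ]
      ring
    have ha : w.valuation E (algebraMap K E a) ≤ WithZero.exp (-1 : ℤ) := by
      have h3 : 2 * algebraMap K E a = z + σ z := by rw [hσz, hab]; ring
      have h4 : w.valuation E (2 * algebraMap K E a) ≤ WithZero.exp (-1 : ℤ) := by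
        rw [h3]
        refine (Valuation.map_add _ _ _).trans (max_le hz.le ?_)
        rw [hinv, hz]
      rwa [map_mul, hw2, one_mul] at h4
    have hb : w.valuation E (algebraMap K E b) ≤ WithZero.exp (-1 : ℤ) := by
      have h3 : 2 * (algebraMap K E b * s) = z - σ z := by rw [hσz, hab]; ring
      have h4 : w.valuation E (2 * (algebraMap K E b * s)) ≤ WithZero.exp (-1 : ℤ) := by
        rw [h3]
        refine (Valuation.map_sub _ _ _).trans (max_le hz.le ?_)
        rw [hinv, hz]
      rwa [map_mul, map_mul, hw2, hws, one_mul, mul_one] at h4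
    have hlt : (WithZero.exp (-1 : ℤ)) < 1 := by
      rw [← WithZero.exp_zero, WithZero.exp_lt_exp]
      norm_num
    have ha2 := hval a (ha.trans_lt hlt)
    have hb2 := hval b (hb.trans_lt hlt)
    have hz2 : w.valuation E z ≤ WithZero.exp (-(e : ℤ)) := by
      rw [hab]
      refine (Valuation.map_add _ _ _).trans (max_le ha2 ?_)
      rw [map_mul, hws, mul_one]
      exact hb2
    rw [hz, WithZero.exp_le_exp] at hz2
    omega
  · -- two places above
    have hpow : ¬ w.asIdeal ≤ w.asIdeal ^ 2 := by
      intro h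
      have hlt : w.asIdeal ^ 2 < w.asIdeal := by
        rw [← Ideal.dvdNotUnit_iff_lt]
        exact ⟨w.ne_bot, w.asIdeal, Ideal.isUnit_iff.not.mpr w.isPrime.ne_top, sq w.asIdeal⟩
      exact absurd h (not_le_of_gt hlt)
    have h3 : ¬ (w.asIdeal : Set (𝓞 E)) ⊆ (w.asIdeal ^ 2 : Ideal (𝓞 E)) ∪
        ((cjs σ w).asIdeal : Set (𝓞 E)) := by
      rw [Ideal.subset_union]
      rintro (h | h)
      · exact hpow h
      · exact hc (HeightOneSpectrum.ext (w.isMaximal.eq_of_le (cjs σ w).isPrime.ne_top h).symm)
    rw [Set.not_subset] at h3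
    obtain ⟨z, hz, hz'⟩ := h3
    rw [Set.mem_union, not_or] at hz'
    obtain ⟨hz1, hz2⟩ := hz'
    have hwz : w.valuation E (z : E) = WithZero.exp (-1 : ℤ) := by
      rw [HeightOneSpectrum.valuation_of_algebraMap]
      have g1 : w.intValuation z ≤ WithZero.exp (-((1 : ℕ) : ℤ)) := by
        rw [HeightOneSpectrum.intValuation_le_pow_iff_mem, pow_one]
        exact hz
      have g2 : ¬ w.intValuation z ≤ WithZero.exp (-((2 : ℕ) : ℤ)) := by
        rw [HeightOneSpectrum.intValuation_le_pow_iff_mem]
        exact hz1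
      have g3 : w.intValuation z ≠ 0 := by
        intro h
        apply g2
        rw [h]; exact zero_le
      rw [← WithZero.exp_log g3] at g1 g2 ⊢
      rw [WithZero.exp_le_exp] at g1 g2
      rw [WithZero.exp_inj]
      push_cast at g1 g2
      omega
    have hcz : w.valuation E (σ (z : E)) = 1 := by
      rw [← val_cjs, HeightOneSpectrum.valuation_of_algebraMap,
        HeightOneSpectrum.intValuation_eq_one_iff]
      exact hz2
    have hn : w.valuation E (algebraMap K E (Algebra.norm K (z : E))) = WithZero.exp (-1 : ℤ) := by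
      rw [hN, map_mul, hwz, hcz, mul_one]
    rw [← hL] at hn
    have hx0 : (w.under (𝓞 K)).valuation K (Algebra.norm K (z : E)) ≠ 0 := by
      intro h
      rw [h, zero_pow h0] at hn
      exact WithZero.exp_ne_zero hn.symm
    rw [← WithZero.exp_log hx0, ← WithZero.exp_nsmul, WithZero.exp_inj, nsmul_eq_mul] at hn
    have h5 : (e : ℤ) ∣ 1 := ⟨-WithZero.log ((w.under (𝓞 K)).valuation K
      (Algebra.norm K (z : E))), by linarith⟩
    have h6 : e ∣ 1 := by exact_mod_cast h5
    exact Nat.dvd_one.1 h6

end Pool.Agent.H93.QC
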